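import Mathlib

/-!
# Diagonal forms over nonreal extension fields of the real numbers

Power sums of `(1 + a ζ ^ (-j)) (1 + b ζ ^ j)`, and a root of `∑ k, (d choose k) ^ 2 (-u) ^ k`
in the open unit interval.
-/

set_option autoImplicit false

namespace Pool.Agent.K1H8.DF

open Finset

theorem orth {E : Type*} [Field E] {N : ℕ} {ζ : E} (hζ : IsPrimitiveRoot ζ N) (hN : 0 < N)
    (k l : ℕ) (hk : k < N) (hl : l < N) :
    ∑ j ∈ range N, ((ζ⁻¹) ^ k * ζ ^ l) ^ j = if k = l then (N : E) else 0 := by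
  have h0 : ζ ≠ 0 := hζ.ne_zero hN.ne'
  by_cases hkl : k = l
  · subst hkl
    rw [if_pos rfl, ← mul_pow, inv_mul_cancel₀ h0, one_pow]
    simp
  · rw [if_neg hkl]
    have h1 : (ζ⁻¹) ^ k * ζ ^ l ≠ 1 := by
      intro h
      have h2 : ζ ^ l = ζ ^ k := by
        have h3 : ζ ^ k * ((ζ⁻¹) ^ k * ζ ^ l) = ζ ^ l := by
          rw [← mul_assoc, ← mul_pow, mul_inv_cancel₀ h0, one_pow, one_mul]
        rw [← h3, h, mul_one]
      exact hkl (hζ.pow_inj hl hk h2).symm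
    have h2 : ((ζ⁻¹) ^ k * ζ ^ l) ^ N = 1 := by
      rw [mul_pow, ← pow_mul, ← pow_mul, mul_comm k N, mul_comm l N, pow_mul, pow_mul, inv_pow,
        hζ.pow_eq_one, inv_one, one_pow, one_pow, one_mul]
    have h3 := geom_sum_mul ((ζ⁻¹) ^ k * ζ ^ l) N
    rw [h2, sub_self] at h3
    exact (mul_eq_zero.1 h3).resolve_right (sub_ne_zero.2 h1)

theorem ps {E : Type*} [Field E] {N : ℕ} {ζ : E} (hζ : IsPrimitiveRoot ζ N) (hN : 0 < N)
    (a b : E) (e : ℕ) (he : e < N) :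
    ∑ j ∈ range N, ((1 + a * (ζ⁻¹) ^ j) * (1 + b * ζ ^ j)) ^ e =
      (N : E) * ∑ k ∈ range (e + 1), ((e.choose k : ℕ) : E) ^ 2 * (a * b) ^ k := by
  have h1 : ∀ j, ((1 + a * (ζ⁻¹) ^ j) * (1 + b * ζ ^ j)) ^ e =
      ∑ k ∈ range (e + 1), ∑ l ∈ range (e + 1),
        (a ^ k * b ^ l * ((e.choose k : ℕ) : E) * ((e.choose l : ℕ) : E)) *
          ((ζ⁻¹) ^ k * ζ ^ l) ^ j := by
    intro j
    rw [mul_pow, add_comm 1 (a * (ζ⁻¹) ^ j), add_comm 1 (b * ζ ^ j), add_pow, add_pow,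
      Finset.sum_mul_sum]
    refine Finset.sum_congr rfl fun k _ => Finset.sum_congr rfl fun l _ => ?_
    rw [one_pow, one_pow, mul_pow, mul_pow, mul_pow, ← pow_mul, ← pow_mul, ← pow_mul, ← pow_mul,
      mul_comm k j, mul_comm l j]
    ring
  rw [Finset.sum_congr rfl fun j _ => h1 j, Finset.sum_comm, Finset.mul_sum]
  refine Finset.sum_congr rfl fun k hk => ?_
  rw [Finset.sum_comm, Finset.sum_eq_single k]
  · rw [← Finset.mul_sum, orth hζ hN k k (by rw [Finset.mem_range] at hk; omega)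
      (by rw [Finset.mem_range] at hk; omega), if_pos rfl, mul_pow]
    ring
  · intro l hl hlk
    rw [← Finset.mul_sum, orth hζ hN k l (by rw [Finset.mem_range] at hk; omega)
      (by rw [Finset.mem_range] at hl; omega), if_neg (Ne.symm hlk), mul_zero]
  · intro h
    exact absurd hk h

/-- `R d u = ∑ k, (d choose k) ^ 2 (-u) ^ k` -/
noncomputable def R (d : ℕ) (u : ℝ) : ℝ := ∑ k ∈ range (d + 1), ((d.choose k : ℕ) : ℝ) ^ 2 * (-u) ^ k

/-- the primitive -/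
noncomputable def T (d : ℕ) (u : ℝ) : ℝ :=
  ∑ k ∈ range d, ((-1 : ℝ) ^ k * (d.choose (k + 1) : ℕ) * (d.choose k : ℕ)) * u ^ (k + 1)

/-- its derivative -/
noncomputable def T' (d : ℕ) (u : ℝ) : ℝ :=
  ∑ k ∈ range d, ((-1 : ℝ) ^ k * (d.choose (k + 1) : ℕ) * (d.choose k : ℕ)) *
    (((k + 1 : ℕ) : ℝ) * u ^ k)

theorem hasDerivAt_T (d : ℕ) (u : ℝ) : HasDerivAt (T d) (T' d u) u := by
  unfold T T'
  refine HasDerivAt.fun_sum fun k _ => ?_
  have h := (hasDerivAt_pow (k + 1) u).const_mul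
    ((-1 : ℝ) ^ k * (d.choose (k + 1) : ℕ) * (d.choose k : ℕ))
  simpa using h

theorem T_ode (d : ℕ) (u : ℝ) : (1 + u) * T' d u - (d + 1) * T d u = d * R d u := by
  have hc : ∀ k, ((d.choose (k + 1) : ℕ) : ℝ) * (k + 1) = (d.choose k : ℕ) * ((d : ℝ) - k) := by
    intro k
    rcases le_or_gt k d with hk | hk
    · have h := Nat.choose_succ_right_eq d k
      have h2 : ((d.choose (k + 1) * (k + 1) : ℕ) : ℝ) = ((d.choose k * (d - k) : ℕ) : ℝ) := by
        rw [h]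
      rw [Nat.cast_mul, Nat.cast_mul, Nat.cast_sub hk] at h2
      push_cast at h2
      exact h2
    · rw [Nat.choose_eq_zero_of_lt hk, Nat.choose_eq_zero_of_lt (by omega)]
      simp
  have e1 : (1 + u) * T' d u - (d + 1) * T d u =
      ∑ k ∈ range d, ((-1 : ℝ) ^ k * ((d : ℝ) - k) * ((d.choose k : ℕ) : ℝ) ^ 2 * u ^ k) +
      ∑ k ∈ range d, ((-1 : ℝ) ^ (k + 1) * ((k + 1 : ℕ) : ℝ) *
        ((d.choose (k + 1) : ℕ) : ℝ) ^ 2 * u ^ (k + 1)) := by
    unfold T T'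
    rw [Finset.mul_sum, Finset.mul_sum, ← Finset.sum_sub_distrib, ← Finset.sum_add_distrib]
    refine Finset.sum_congr rfl fun k _ => ?_
    have h := hc k
    push_cast
    have h2 : ((d.choose (k + 1) : ℕ) : ℝ) ^ 2 * (k + 1) =
        ((d.choose (k + 1) : ℕ) : ℝ) * ((d.choose k : ℕ) * ((d : ℝ) - k)) := by
      rw [← h]; ring
    have h3 : ((d.choose k : ℕ) : ℝ) ^ 2 * ((d : ℝ) - k) =
        ((d.choose k : ℕ) : ℝ) * (((d.choose (k + 1) : ℕ) : ℝ) * (k + 1)) := by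
      rw [h]; ring
    have h4 : (-1 : ℝ) ^ k * ((d : ℝ) - k) * ((d.choose k : ℕ) : ℝ) ^ 2 * u ^ k +
        (-1 : ℝ) ^ (k + 1) * ((k : ℝ) + 1) * ((d.choose (k + 1) : ℕ) : ℝ) ^ 2 * u ^ (k + 1) =
        (-1 : ℝ) ^ k * u ^ k * (((d.choose k : ℕ) : ℝ) ^ 2 * ((d : ℝ) - k)) -
        (-1 : ℝ) ^ k * u ^ (k + 1) * (((d.choose (k + 1) : ℕ) : ℝ) ^ 2 * (k + 1)) := by
      ring
    rw [h4, h2, h3]
    ring
  have e2 : ∑ k ∈ range d, ((-1 : ℝ) ^ k * ((d : ℝ) - k) * ((d.choose k : ℕ) : ℝ) ^ 2 * u ^ k) =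
      ∑ k ∈ range (d + 1),
        ((-1 : ℝ) ^ k * ((d : ℝ) - k) * ((d.choose k : ℕ) : ℝ) ^ 2 * u ^ k) := by
    rw [Finset.sum_range_succ, sub_self]
    simp
  have e3 : ∑ k ∈ range d, ((-1 : ℝ) ^ (k + 1) * ((k + 1 : ℕ) : ℝ) *
        ((d.choose (k + 1) : ℕ) : ℝ) ^ 2 * u ^ (k + 1)) =
      ∑ k ∈ range (d + 1), ((-1 : ℝ) ^ k * (k : ℝ) *
        ((d.choose k : ℕ) : ℝ) ^ 2 * u ^ k) := by
    rw [Finset.sum_range_succ']
    simp
  rw [e1, e2, e3, ← Finset.sum_add_distrib]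
  unfold R
  rw [Finset.mul_sum]
  refine Finset.sum_congr rfl fun k _ => ?_
  rw [neg_pow u k]
  ring

theorem T_zero (d : ℕ) : T d 0 = 0 := by
  unfold T
  refine Finset.sum_eq_zero fun k _ => ?_
  rw [zero_pow (Nat.succ_ne_zero k), mul_zero]

theorem T_one {d : ℕ} (hd : Even d) : T d 1 = 0 := by
  have h1 : T d 1 = - T d 1 := by
    unfold T
    conv_lhs => rw [← Finset.sum_range_reflect]
    rw [← Finset.sum_neg_distrib]
    refine Finset.sum_congr rfl fun k hk => ?_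
    have hk' : k < d := Finset.mem_range.1 hk
    have e1 : d.choose (d - 1 - k + 1) = d.choose k := by
      rw [show d - 1 - k + 1 = d - k by omega]
      exact Nat.choose_symm hk'.le
    have e2 : d.choose (d - 1 - k) = d.choose (k + 1) := by
      rw [show d - 1 - k = d - (k + 1) by omega]
      exact Nat.choose_symm (by omega)
    have e3 : (-1 : ℝ) ^ (d - 1 - k) = - (-1 : ℝ) ^ k := by
      obtain ⟨m, hm⟩ := hd
      rcases Nat.even_or_odd k with hk2 | hk2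
      · have h3 : Odd (d - 1 - k) := by
          obtain ⟨t, ht⟩ := hk2
          exact ⟨m - 1 - t, by omega⟩
        rw [h3.neg_one_pow, hk2.neg_one_pow]
      · have h3 : Even (d - 1 - k) := by
          obtain ⟨t, ht⟩ := hk2
          exact ⟨m - 1 - t, by omega⟩
        rw [h3.neg_one_pow, hk2.neg_one_pow, neg_neg]
    rw [e1, e2, e3, one_pow, one_pow]
    ring
  linarith

/-- a root of `R d` in the open unit interval -/
theorem exists_root {d : ℕ} (hd : Even d) (hd0 : 0 < d) : ∃ u : ℝ, 0 < u ∧ u < 1 ∧ R d u = 0 := by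
  have hder : ∀ x ∈ Set.Ioo (0 : ℝ) 1, HasDerivAt (fun u => T d u / (1 + u) ^ (d + 1))
      ((T' d x * (1 + x) ^ (d + 1) - T d x * (((d + 1 : ℕ) : ℝ) * (1 + x) ^ d)) /
        ((1 + x) ^ (d + 1)) ^ 2) x := by
    intro x hx
    have h1 : HasDerivAt (fun u : ℝ => (1 + u) ^ (d + 1)) (((d + 1 : ℕ) : ℝ) * (1 + x) ^ d) x := by
      have h2 := ((hasDerivAt_id' x).const_add (1 : ℝ)).fun_pow (d + 1)
      simpa using h2
    exact (hasDerivAt_T d x).div h1 (pow_ne_zero _ (by linarith [hx.1]))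
  have hcont : ContinuousOn (fun u => T d u / (1 + u) ^ (d + 1)) (Set.Icc (0 : ℝ) 1) := by
    refine ContinuousOn.div ?_ ?_ ?_
    · exact fun x _ => (hasDerivAt_T d x).continuousAt.continuousWithinAt
    · exact ((continuous_const.add continuous_id).pow _).continuousOn
    · intro x hx
      exact pow_ne_zero _ (by linarith [hx.1])
  obtain ⟨c, hc, hc0⟩ := exists_hasDerivAt_eq_zero (f := fun u => T d u / (1 + u) ^ (d + 1))
    (zero_lt_one) hcont (by simp only [T_zero, T_one hd, zero_div]) hder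
  refine ⟨c, hc.1, hc.2, ?_⟩
  have hp : (1 + c) ≠ 0 := by linarith [hc.1]
  rw [div_eq_zero_iff] at hc0
  have h3 := hc0.resolve_right (pow_ne_zero _ (pow_ne_zero _ hp))
  have h4 : (1 + c) ^ d * (d * R d c) = 0 := by
    rw [← T_ode, ← h3]
    push_cast
    ring
  have h5 := (mul_eq_zero.1 h4).resolve_left (pow_ne_zero _ hp)
  exact (mul_eq_zero.1 h5).resolve_left (by exact_mod_cast hd0.ne')

end Pool.Agent.K1H8.DF
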