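import Pool.Agent.K1H8.DF.Core

/-!
# The Fermat form over an extension field of the real numbers in which `-1` is a sum of two squares
-/

set_option autoImplicit false

namespace Pool.Agent.K1H8.DF

open Finset

theorem trig (N : ℕ) (j : ℕ) :
    (Complex.exp (2 * Real.pi * Complex.I / N)) ^ j =
        (Real.cos (2 * Real.pi * j / N) : ℂ) + (Real.sin (2 * Real.pi * j / N) : ℂ) * Complex.I ∧
    ((Complex.exp (2 * Real.pi * Complex.I / N))⁻¹) ^ j =
        (Real.cos (2 * Real.pi * j / N) : ℂ) - (Real.sin (2 * Real.pi * j / N) : ℂ) * Complex.I := by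
  have h1 : (Complex.exp (2 * Real.pi * Complex.I / N)) ^ j =
        (Real.cos (2 * Real.pi * j / N) : ℂ) +
          (Real.sin (2 * Real.pi * j / N) : ℂ) * Complex.I := by
    rw [← Complex.exp_nat_mul, Complex.ofReal_cos, Complex.ofReal_sin, ← Complex.exp_mul_I]
    congr 1
    push_cast
    ring
  refine ⟨h1, ?_⟩
  rw [inv_pow, h1]
  refine inv_eq_of_mul_eq_one_right ?_
  have h2 : (Real.cos (2 * Real.pi * j / N) : ℂ) ^ 2 + (Real.sin (2 * Real.pi * j / N) : ℂ) ^ 2 =
      1 := by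
    exact_mod_cast congrArg (fun r : ℝ => (r : ℂ)) (Real.cos_sq_add_sin_sq (2 * Real.pi * j / N))
  have h3 := Complex.I_sq
  linear_combination h2 - (Real.sin (2 * Real.pi * j / N) : ℂ) ^ 2 * h3

/-- the points -/
noncomputable def L {K : Type*} [Field K] [Algebra ℝ K] (f g : K) (N : ℕ) (u : ℝ) (j : ℕ) : K :=
  algebraMap ℝ K (1 - u) + algebraMap ℝ K (2 * Real.sqrt u * Real.cos (2 * Real.pi * j / N)) * f +
    algebraMap ℝ K (2 * Real.sqrt u * Real.sin (2 * Real.pi * j / N)) * g

theorem sumL {K : Type*} [Field K] [Algebra ℝ K] (f g : K) (hfg : f ^ 2 + g ^ 2 = -1) (N : ℕ)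
    (u : ℝ) (hu : 0 ≤ u) (e : ℕ) (he : e < N) :
    ∑ j ∈ range N, L f g N u j ^ e = algebraMap ℝ K ((N : ℝ) * R e u) := by
  have hN : 0 < N := by omega
  let E := AlgebraicClosure K
  let φ : ℂ →ₐ[ℝ] E := IsAlgClosed.lift
  have hφr : ∀ r : ℝ, φ (r : ℂ) = algebraMap ℝ E r := fun r => φ.commutes r
  have hKE : ∀ r : ℝ, algebraMap K E (algebraMap ℝ K r) = algebraMap ℝ E r := fun r =>
    (IsScalarTower.algebraMap_apply ℝ K E r).symm
  have hζ₀ := Complex.isPrimitiveRoot_exp N hN.ne'
  have hζ : IsPrimitiveRoot (φ (Complex.exp (2 * Real.pi * Complex.I / N))) N :=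
    hζ₀.map_of_injective (f := φ) (RingHom.injective (φ : ℂ →+* E))
  have hI : (φ Complex.I) ^ 2 = -1 := by rw [← map_pow, Complex.I_sq, map_neg, map_one]
  have hFG : (algebraMap K E f) ^ 2 + (algebraMap K E g) ^ 2 = -1 := by
    rw [← map_pow, ← map_pow, ← map_add, hfg, map_neg, map_one]
  have hρ : (algebraMap ℝ E (Real.sqrt u)) ^ 2 = algebraMap ℝ E u := by
    rw [← map_pow, Real.sq_sqrt hu]
  have key : ∀ j, algebraMap K E (L f g N u j) =
      (1 + (algebraMap ℝ E (Real.sqrt u) * (algebraMap K E f + φ Complex.I * algebraMap K E g)) *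
        ((φ (Complex.exp (2 * Real.pi * Complex.I / N)))⁻¹) ^ j) *
      (1 + (algebraMap ℝ E (Real.sqrt u) * (algebraMap K E f - φ Complex.I * algebraMap K E g)) *
        (φ (Complex.exp (2 * Real.pi * Complex.I / N))) ^ j) := by
    intro j
    obtain ⟨t1, t2⟩ := trig N j
    rw [← map_inv₀, ← map_pow, ← map_pow, t1, t2, map_add, map_sub, map_mul, hφr, hφr]
    unfold L
    simp only [map_add, map_mul, map_sub, map_one, map_ofNat, hKE]
    have hCS : (algebraMap ℝ E (Real.cos (2 * Real.pi * j / N))) ^ 2 +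
        (algebraMap ℝ E (Real.sin (2 * Real.pi * j / N))) ^ 2 = 1 := by
      rw [← map_pow, ← map_pow, ← map_add, Real.cos_sq_add_sin_sq, map_one]
    generalize algebraMap ℝ E (Real.cos (2 * Real.pi * j / N)) = C at *
    generalize algebraMap ℝ E (Real.sin (2 * Real.pi * j / N)) = S at *
    generalize algebraMap ℝ E (Real.sqrt u) = ρ at *
    generalize algebraMap ℝ E u = U at *
    generalize algebraMap K E f = F at *
    generalize algebraMap K E g = G at *
    generalize φ Complex.I = i at *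
    linear_combination (-(ρ ^ 2 * (C ^ 2 - i ^ 2 * S ^ 2))) * hFG +
      (ρ ^ 2 * G ^ 2 * (C ^ 2 - i ^ 2 * S ^ 2) - ρ ^ 2 * S ^ 2 + 2 * ρ * G * S) * hI +
      ρ ^ 2 * hCS + hρ
  have hab : (algebraMap ℝ E (Real.sqrt u) * (algebraMap K E f + φ Complex.I * algebraMap K E g)) *
      (algebraMap ℝ E (Real.sqrt u) * (algebraMap K E f - φ Complex.I * algebraMap K E g)) =
      algebraMap ℝ E (-u) := by
    rw [map_neg]
    generalize algebraMap ℝ E (Real.sqrt u) = ρ at *
    generalize algebraMap ℝ E u = U at *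
    generalize algebraMap K E f = F at *
    generalize algebraMap K E g = G at *
    generalize φ Complex.I = i at *
    linear_combination ρ ^ 2 * hFG - ρ ^ 2 * G ^ 2 * hI - hρ
  refine (algebraMap K E).injective ?_
  rw [map_sum, hKE]
  have h1 : ∀ j ∈ range N, algebraMap K E (L f g N u j ^ e) = _ := fun j _ => by
    rw [map_pow, key j]
  rw [Finset.sum_congr rfl h1, ps hζ hN _ _ e he, hab]
  unfold R
  rw [map_mul, map_natCast, map_sum]
  congr 1
  refine Finset.sum_congr rfl fun k _ => ?_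
  rw [map_mul, map_pow, map_natCast, map_pow]

theorem fermat {K : Type*} [Field K] [Algebra ℝ K] (f g : K) (hfg : f ^ 2 + g ^ 2 = -1)
    (d N : ℕ) (hd : Even d) (hd0 : 0 < d) (hN : d < N) :
    ∃ x : Fin N → K, x ≠ 0 ∧ ∑ j, x j ^ d = 0 := by
  obtain ⟨u, hu0, hu1, hR⟩ := exists_root hd hd0
  refine ⟨fun j => L f g N u j, ?_, ?_⟩
  · intro h
    have h1 := sumL f g hfg N u hu0.le 1 (by omega)
    have h2 : ∑ j ∈ range N, L f g N u j ^ 1 = 0 := by
      refine Finset.sum_eq_zero fun j hj => ?_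
      have := congrFun h ⟨j, Finset.mem_range.1 hj⟩
      rw [pow_one]
      exact this
    rw [h2] at h1
    have h3 : (N : ℝ) * R 1 u = 0 := by
      refine (algebraMap ℝ K).injective ?_
      rw [← h1, map_zero]
    have h4 : R 1 u = 1 - u := by
      unfold R
      rw [Finset.sum_range_succ, Finset.sum_range_one]
      norm_num
      ring
    rw [h4] at h3
    rcases mul_eq_zero.1 h3 with h5 | h5
    · have : N = 0 := by exact_mod_cast h5
      omega
    · linarith
  · have h1 := sumL f g hfg N u hu0.le d hN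
    rw [hR, mul_zero, map_zero, Finset.sum_range] at h1
    exact h1

/-- a real number with a given `d`-th power -/
theorem exists_root_pos {d : ℕ} (hd : 0 < d) {c : ℝ} (hc : 0 < c) : ∃ p : ℝ, 0 < p ∧ p ^ d = c :=
  ⟨c ^ ((d : ℝ)⁻¹), Real.rpow_pos_of_pos hc _, Real.rpow_inv_natCast_pow hc.le hd.ne'⟩

theorem exists_root_odd {d : ℕ} (hd : Odd d) {c : ℝ} (hc : c ≠ 0) : ∃ p : ℝ, p ≠ 0 ∧ p ^ d = c := by
  rcases lt_or_gt_of_ne hc with h | h
  · obtain ⟨p, hp, hp'⟩ := exists_root_pos hd.pos (show 0 < -c by linarith)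
    exact ⟨-p, by linarith [hp] |> fun h : -p < 0 => h.ne, by rw [hd.neg_pow, hp', neg_neg]⟩
  · obtain ⟨p, hp, hp'⟩ := exists_root_pos hd.pos h
    exact ⟨p, hp.ne', hp'⟩

theorem two_terms {K : Type*} [Field K] [Algebra ℝ K] {N d : ℕ} (hd : 0 < d) (a : Fin N → ℝ)
    (i j : Fin N) (hij : i ≠ j) (p q : ℝ) (hp : p ≠ 0) (h : a i * p ^ d + a j * q ^ d = 0) :
    ∃ x : Fin N → K, x ≠ 0 ∧ ∑ k, algebraMap ℝ K (a k) * x k ^ d = 0 := by
  refine ⟨fun k => if k = i then algebraMap ℝ K p else if k = j then algebraMap ℝ K q else 0,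
    ?_, ?_⟩
  · intro h0
    have h1 := congrFun h0 i
    simp only [if_true, Pi.zero_apply] at h1
    exact hp ((map_eq_zero (algebraMap ℝ K)).1 h1)
  · rw [Finset.sum_eq_add i j hij]
    · simp only [if_true, if_neg hij.symm]
      rw [← map_pow, ← map_pow, ← map_mul, ← map_mul, ← map_add, h, map_zero]
    · intro k _ hk
      simp only [if_neg hk.1, if_neg hk.2]
      rw [zero_pow hd.ne', mul_zero]
    · intro h; exact absurd (Finset.mem_univ _) h
    · intro h; exact absurd (Finset.mem_univ _) h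

theorem same_sign {K : Type*} [Field K] [Algebra ℝ K] (f g : K) (hfg : f ^ 2 + g ^ 2 = -1)
    {N d : ℕ} (hd : Even d) (hd0 : 0 < d) (hN : d < N) (a : Fin N → ℝ) (σ : ℝ)
    (h : ∀ i, 0 < σ * a i) (hσ : σ ≠ 0) :
    ∃ x : Fin N → K, x ≠ 0 ∧ ∑ k, algebraMap ℝ K (a k) * x k ^ d = 0 := by
  obtain ⟨y, hy, hys⟩ := fermat f g hfg d N hd hd0 hN
  choose p hp hp' using fun i => exists_root_pos hd0 (h i)
  refine ⟨fun i => algebraMap ℝ K (p i)⁻¹ * y i, ?_, ?_⟩
  · intro h0
    apply hy
    funext i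
    have h1 := congrFun h0 i
    simp only [Pi.zero_apply] at h1 ⊢
    refine (mul_eq_zero.1 h1).resolve_left fun h2 => ?_
    rw [map_eq_zero] at h2
    exact inv_ne_zero (hp i).ne' h2
  · have h1 : ∀ i, algebraMap ℝ K (a i) * (algebraMap ℝ K (p i)⁻¹ * y i) ^ d =
        algebraMap ℝ K σ⁻¹ * y i ^ d := by
      intro i
      rw [mul_pow, ← mul_assoc, ← map_pow, ← map_mul, inv_pow, hp' i]
      congr 2
      have h2 : a i ≠ 0 := by
        intro h3
        have := h i
        rw [h3, mul_zero] at this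
        exact lt_irrefl _ this
      field_simp
    rw [Finset.sum_congr rfl fun i _ => h1 i, ← Finset.mul_sum, hys, mul_zero]

theorem main {K : Type*} [Field K] [Algebra ℝ K] (f g : K) (hfg : f ^ 2 + g ^ 2 = -1)
    (d N : ℕ) (hd : 0 < d) (hN : d < N) (a : Fin N → ℝ) :
    ∃ x : Fin N → K, x ≠ 0 ∧ ∑ j, algebraMap ℝ K (a j) * x j ^ d = 0 := by
  by_cases hz : ∃ i, a i = 0
  · obtain ⟨i, hi⟩ := hz
    refine ⟨Pi.single i 1, ?_, ?_⟩
    · intro h
      have := congrFun h i
      simp at this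
    · refine Finset.sum_eq_zero fun j _ => ?_
      by_cases hji : j = i
      · rw [hji, hi, map_zero, zero_mul]
      · rw [Pi.single_eq_of_ne hji, zero_pow hd.ne', mul_zero]
  · push Not at hz
    let i₀ : Fin N := ⟨0, by omega⟩
    let i₁ : Fin N := ⟨1, by omega⟩
    have h01 : i₀ ≠ i₁ := by
      intro h
      have := congrArg Fin.val h
      simp [i₀, i₁] at this
    rcases Nat.even_or_odd d with hev | hod
    · by_cases hs : ∃ i j, 0 < a i ∧ a j < 0
      · obtain ⟨i, j, hi, hj⟩ := hs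
        have hij : i ≠ j := by
          rintro rfl
          linarith
        obtain ⟨p, hp, hp'⟩ := exists_root_pos hd (show 0 < - a j by linarith)
        obtain ⟨q, hq, hq'⟩ := exists_root_pos hd hi
        exact two_terms hd a i j hij p q hp.ne' (by rw [hp', hq']; ring)
      · push Not at hs
        rcases lt_or_gt_of_ne (hz i₀) with h0 | h0
        · refine same_sign f g hfg hev hd hN a (-1) (fun i => ?_) (by norm_num)
          have h1 : ¬ 0 < a i := fun h2 => absurd (hs i i₀ h2) (not_le.2 h0)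
          have h2 := lt_of_le_of_ne (not_lt.1 h1) (hz i)
          linarith
        · refine same_sign f g hfg hev hd hN a 1 (fun i => ?_) (by norm_num)
          have h1 := hs i₀ i h0
          have h2 := lt_of_le_of_ne h1 (Ne.symm (hz i))
          linarith
    · obtain ⟨p, hp, hp'⟩ := exists_root_odd hod (neg_ne_zero.2 (hz i₁))
      obtain ⟨q, hq, hq'⟩ := exists_root_odd hod (hz i₀)
      exact two_terms hd a i₀ i₁ h01 p q hp (by rw [hp', hq']; ring)

end Pool.Agent.K1H8.DF
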