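import Pool.Agent.K1H8.DF.Fermat

/-!
# Symmetric forms over a field in which `-1` is a sum of two squares
-/

set_option autoImplicit false

namespace Pool.Agent.K1H8.DF

open MvPolynomial

/-! ### symmetric forms vanish where the power sums vanish -/

theorem esymm_zero {K : Type*} [Field K] [CharZero K] {N : ℕ} (x : Fin N → K) (d : ℕ)
    (h : ∀ k, 1 ≤ k → k ≤ d → ∑ i, x i ^ k = 0) (k : ℕ) (hk : 1 ≤ k) (hkd : k ≤ d) :
    eval x (esymm (Fin N) K k) = 0 := by
  have h1 := congrArg (eval x) (mul_esymm_eq_sum (Fin N) K k)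
  rw [map_mul, map_mul, map_sum] at h1
  have h2 : ∑ a ∈ (Finset.HasAntidiagonal.antidiagonal k).filter (fun a : ℕ × ℕ => a.1 < k),
      eval x ((-1) ^ a.1 * esymm (Fin N) K a.1 * psum (Fin N) K a.2) = 0 := by
    refine Finset.sum_eq_zero fun a ha => ?_
    rw [Finset.mem_filter, Finset.HasAntidiagonal.mem_antidiagonal] at ha
    have h3 : eval x (psum (Fin N) K a.2) = 0 := by
      unfold psum
      rw [map_sum]
      simp only [map_pow, eval_X]
      exact h a.2 (by omega) (by omega)
    rw [map_mul, h3, mul_zero]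
  rw [h2, mul_zero, map_natCast] at h1
  exact (mul_eq_zero.1 h1).resolve_left (by exact_mod_cast (by omega : k ≠ 0))

theorem esymm_scale {K : Type*} [Field K] {N : ℕ} (x : Fin N → K) (t : K) (k : ℕ) :
    eval (fun i => t * x i) (esymm (Fin N) K k) = t ^ k * eval x (esymm (Fin N) K k) := by
  unfold esymm
  rw [map_sum, map_sum, Finset.mul_sum]
  refine Finset.sum_congr rfl fun s hs => ?_
  rw [map_prod, map_prod]
  simp only [eval_X]
  rw [Finset.prod_mul_distrib, Finset.prod_const, (Finset.mem_powersetCard.1 hs).2]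

theorem homog_scale {K : Type*} [Field K] {N d : ℕ} (F : MvPolynomial (Fin N) K)
    (hF : F.IsHomogeneous d) (x : Fin N → K) (t : K) :
    eval (fun i => t * x i) F = t ^ d * eval x F := by
  rw [eval_eq', eval_eq', Finset.mul_sum]
  refine Finset.sum_congr rfl fun m hm => ?_
  have h1 : m.degree = d := by
    by_contra hcon
    exact (mem_support_iff.1 hm) (hF.coeff_eq_zero hcon)
  have h2 : ∏ i, (t * x i) ^ m i = t ^ d * ∏ i, x i ^ m i := by
    simp only [mul_pow]
    rw [Finset.prod_mul_distrib, Finset.prod_pow_eq_pow_sum, ← h1, Finsupp.degree_eq_sum]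
  rw [h2]
  ring

theorem dvd_aeval {K : Type*} [Field K] {N : ℕ} (v : Fin N → Polynomial K) (q : Polynomial K)
    (hv : ∀ i, q ∣ v i) (G : MvPolynomial (Fin N) K) :
    q ∣ aeval v G - Polynomial.C (constantCoeff G) := by
  induction G using MvPolynomial.induction_on with
  | C a =>
    rw [algHom_C, constantCoeff_C, Polynomial.algebraMap_eq, sub_self]
    exact dvd_zero _
  | add p p' hp hp' =>
    have : aeval v (p + p') - Polynomial.C (constantCoeff (p + p')) =
        (aeval v p - Polynomial.C (constantCoeff p)) +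
          (aeval v p' - Polynomial.C (constantCoeff p')) := by
      rw [map_add, map_add, map_add]; ring
    rw [this]
    exact dvd_add hp hp'
  | mul_X p i _ =>
    rw [map_mul, map_mul, aeval_X, constantCoeff_X, mul_zero, Polynomial.C_0, sub_zero]
    exact (hv i).mul_left _

theorem symm_zero {K : Type*} [Field K] [CharZero K] {N d : ℕ} (hd : 0 < d) (x : Fin N → K)
    (h : ∀ k, 1 ≤ k → k ≤ d → ∑ i, x i ^ k = 0) (F : MvPolynomial (Fin N) K)
    (hs : F.IsSymmetric) (hF : F.IsHomogeneous d) : eval x F = 0 := by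
  obtain ⟨G, hG⟩ := esymmAlgHom_surjective K (σ := Fin N) (n := N) (by rw [Fintype.card_fin])
    ⟨F, hs⟩
  have hG' : aeval (fun i : Fin N => esymm (Fin N) K (i + 1)) G = F := by
    rw [← esymmAlgHom_apply, hG]
  have hev : ∀ y : Fin N → K, eval y F = eval (fun i : Fin N => eval y (esymm (Fin N) K (i + 1))) G
      := by
    intro y
    rw [← hG', ← coe_aeval_eq_eval, ← coe_aeval_eq_eval]
    change aeval y (aeval _ G) = _
    rw [← AlgHom.comp_apply, comp_aeval]
    rfl
  let v : Fin N → Polynomial K := fun i =>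
    Polynomial.C (eval x (esymm (Fin N) K (i + 1))) * Polynomial.X ^ ((i : ℕ) + 1)
  have hv : ∀ i, (Polynomial.X ^ (d + 1) : Polynomial K) ∣ v i := by
    intro i
    by_cases hi : (i : ℕ) + 1 ≤ d
    · have : v i = 0 := by
        show Polynomial.C _ * _ = _
        rw [esymm_zero x d h _ (by omega) hi, Polynomial.C_0, zero_mul]
      rw [this]
      exact dvd_zero _
    · exact (pow_dvd_pow _ (by omega)).mul_left _
  have hid : aeval v G = Polynomial.C (eval x F) * Polynomial.X ^ d := by
    refine Polynomial.funext fun t => ?_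
    rw [Polynomial.eval_mul, Polynomial.eval_C, Polynomial.eval_pow, Polynomial.eval_X, mul_comm,
      ← homog_scale F hF x t, hev]
    have h1 : Polynomial.eval t (aeval v G) = eval (fun i => Polynomial.eval t (v i)) G := by
      rw [← Polynomial.coe_evalRingHom, aeval_def, hom_eval₂]
      rw [eval, eval₂Hom]
      congr 1
      ext a
      simp
    rw [h1]
    congr 1
    congr 1
    funext i
    rw [esymm_scale]
    show Polynomial.eval t (Polynomial.C _ * Polynomial.X ^ _) = _
    rw [Polynomial.eval_mul, Polynomial.eval_C, Polynomial.eval_pow, Polynomial.eval_X, mul_comm]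
  have hdv := dvd_aeval v (Polynomial.X ^ (d + 1)) hv G
  rw [hid] at hdv
  obtain ⟨q, hq⟩ := hdv
  have h2 := congrArg (fun p => Polynomial.coeff p d) hq
  simp only [Polynomial.coeff_sub, Polynomial.coeff_C_mul, Polynomial.coeff_X_pow, if_true,
    mul_one, Polynomial.coeff_C, if_neg hd.ne', sub_zero, Polynomial.coeff_X_pow_mul'] at h2
  rw [h2, if_neg (by omega)]

/-! ### common zeros of the power sums -/

/-- a nonzero family indexed by `ι` whose power sums with exponents in `A` vanish -/
def PS (K : Type*) [Field K] (ι : Type) [Fintype ι] (A : Set ℕ) : Prop :=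
  ∃ x : ι → K, x ≠ 0 ∧ ∀ k ∈ A, ∑ i, x i ^ k = 0

theorem PS_prod {K : Type*} [Field K] {ι κ : Type} [Fintype ι] [Fintype κ] {A B : Set ℕ}
    (h : PS K ι A) (h' : PS K κ B) : PS K (ι × κ) (A ∪ B) := by
  obtain ⟨x, hx, hx'⟩ := h
  obtain ⟨y, hy, hy'⟩ := h'
  obtain ⟨i, hi⟩ := Function.ne_iff.1 hx
  obtain ⟨j, hj⟩ := Function.ne_iff.1 hy
  refine ⟨fun p => x p.1 * y p.2, ?_, ?_⟩
  · intro h0
    have := congrFun h0 (i, j)
    simp only [Pi.zero_apply] at this hi hj
    exact mul_ne_zero hi hj this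
  · intro k hk
    rw [Fintype.sum_prod_type]
    simp only [mul_pow]
    rw [← Finset.sum_mul_sum]
    rcases hk with hk | hk
    · rw [hx' k hk, zero_mul]
    · rw [hy' k hk, mul_zero]

theorem PS_mono {K : Type*} [Field K] {ι κ : Type} [Fintype ι] [Fintype κ] {A B : Set ℕ}
    (h : PS K ι A) (hBA : B ⊆ A) (h0 : 0 ∉ B) (hc : Fintype.card ι ≤ Fintype.card κ) :
    PS K κ B := by
  classical
  obtain ⟨x, hx, hx'⟩ := h
  obtain ⟨e⟩ := Function.Embedding.nonempty_of_card_le hc
  refine ⟨Function.extend e x 0, ?_, ?_⟩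
  · intro h1
    apply hx
    funext i
    have := congrFun h1 (e i)
    rwa [e.injective.extend_apply] at this
  · intro k hk
    have hk0 : k ≠ 0 := fun h => h0 (h ▸ hk)
    have h1 : ∑ j, Function.extend e x 0 j ^ k =
        ∑ j ∈ Finset.univ.map e, Function.extend e x 0 j ^ k := by
      symm
      refine Finset.sum_subset (Finset.subset_univ _) fun j _ hj => ?_
      have h2 : ¬ ∃ i, e i = j := by
        rintro ⟨i, rfl⟩
        exact hj (Finset.mem_map_of_mem e (Finset.mem_univ i))
      rw [Function.extend_apply' _ _ _ h2, Pi.zero_apply, zero_pow hk0]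
    rw [h1, Finset.sum_map]
    simp only [e.injective.extend_apply]
    exact hx' k (hBA hk)

theorem PS_two (K : Type*) [Field K] : PS K Bool {k | Odd k} := by
  refine ⟨fun b => if b then 1 else -1, ?_, ?_⟩
  · intro h
    have := congrFun h true
    simp at this
  · intro k hk
    have hk' : Odd k := hk
    rw [Fintype.sum_bool]
    simp [hk'.neg_one_pow]

theorem PS_all {K : Type*} [Field K] [Algebra ℝ K] (f g : K) (hfg : f ^ 2 + g ^ 2 = -1) (e : ℕ) :
    PS K (Fin (2 * ∏ j ∈ Finset.range e, (2 * j + 3))) {k | Odd k ∨ (1 ≤ k ∧ k ≤ 2 * e)} := by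
  induction e with
  | zero =>
    refine PS_mono (PS_two K) ?_ (by simp) (by simp)
    rintro k (h1 | ⟨h1, h2⟩)
    · exact h1
    · omega
  | succ e ih =>
    have h1 : PS K (Fin (2 * e + 3)) {2 * e + 2} := by
      obtain ⟨x, hx, hx'⟩ := fermat f g hfg (2 * e + 2) (2 * e + 3) ⟨e + 1, by ring⟩ (by omega)
        (by omega)
      refine ⟨x, hx, ?_⟩
      rintro k rfl
      exact hx'
    refine PS_mono (PS_prod ih h1) ?_ (by simp) ?_
    · rintro k (hk | ⟨hk1, hk2⟩)
      · exact Or.inl (Or.inl hk)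
      · by_cases hk3 : k ≤ 2 * e
        · exact Or.inl (Or.inr ⟨hk1, hk3⟩)
        · by_cases hk4 : k = 2 * e + 2
          · exact Or.inr hk4
          · exact Or.inl (Or.inl ⟨e, by omega⟩)
    · rw [Fintype.card_prod, Fintype.card_fin, Fintype.card_fin, Fintype.card_fin,
        Finset.prod_range_succ]
      exact le_of_eq (by ring)

/-- all symmetric forms of degree at most `2 e + 1` have a common nontrivial zero -/
theorem symmetric_forms {K : Type*} [Field K] [Algebra ℝ K] (h : ∃ f g : K, f ^ 2 + g ^ 2 = -1)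
    (e N : ℕ) (hN : 2 * ∏ j ∈ Finset.range e, (2 * j + 3) ≤ N) :
    ∃ x : Fin N → K, x ≠ 0 ∧ ∀ (d : ℕ) (F : MvPolynomial (Fin N) K), 0 < d → d ≤ 2 * e + 1 →
      F.IsSymmetric → F.IsHomogeneous d → eval x F = 0 := by
  obtain ⟨f, g, hfg⟩ := h
  have hc : CharZero K := charZero_of_injective_algebraMap (algebraMap ℝ K).injective
  obtain ⟨x, hx, hx'⟩ := PS_mono (κ := Fin N) (PS_all f g hfg e) (le_refl _) (by simp)
    (by rw [Fintype.card_fin, Fintype.card_fin]; exact hN)
  refine ⟨x, hx, fun d F hd hde hs hF => symm_zero hd x (fun k hk1 hk2 => hx' k ?_) F hs hF⟩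
  rcases Nat.even_or_odd k with hk | hk
  · refine Or.inr ⟨hk1, ?_⟩
    obtain ⟨t, ht⟩ := hk
    omega
  · exact Or.inl hk

end Pool.Agent.K1H8.DF
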